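import Pool.Agent.J4H31.EX.Mean

/-!
# Exceptional arguments and first means in Piltz's divisor problem

A one-sided bound of `Δ_k` outside a set of arguments of measure `O(X^(1-η))`, or at all but `O(N^(1-η))` of the squares,
for infinitely many `k`, is enough for two-sided bounds, and the conjectured mean square, for all `k`. The exponents of the
first means of the positive and of the negative part, as those of the one-sided and of the two-sided bounds, tend to the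
abscissa of the Lindelöf hypothesis.
-/

set_option autoImplicit false

open Filter Topology MeasureTheory Set

namespace Pool.Agent.Results.MP_bc6037_nt.ExceptionalArguments

open Pool.Agent.J4H77.PE Pool.Agent.J4H31.EX

/-- One-sided bounds for infinitely many `k` with exceptional arguments; the limits of the exponents. -/
theorem result (P : ℕ → Polynomial ℝ) (Δ : ℕ → ℝ → ℝ) (α αp αm mp mm β : ℕ → ℝ) (σL : ℝ)
    (hΔ : ∀ k : ℕ, ∀ x : ℝ, Δ k x = (∑ n ∈ Finset.Icc 1 ⌊x⌋₊, (((ArithmeticFunction.zeta ^ k : ArithmeticFunction ℕ) n : ℕ) : ℝ))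
      - x * (P k).eval (Real.log x))
    (hP : ∀ k : ℕ, 2 ≤ k → ∃ θ C : ℝ, θ < 1 ∧ ∀ x : ℝ, 1 ≤ x → |Δ k x| ≤ C * x ^ θ)
    (hα : ∀ k : ℕ, α k = sInf {a : ℝ | ∃ C : ℝ, ∀ x : ℝ, 1 ≤ x → |Δ k x| ≤ C * x ^ a})
    (hαp : ∀ k : ℕ, αp k = sInf {a : ℝ | ∃ C : ℝ, ∀ x : ℝ, 1 ≤ x → Δ k x ≤ C * x ^ a})
    (hαm : ∀ k : ℕ, αm k = sInf {a : ℝ | ∃ C : ℝ, ∀ x : ℝ, 1 ≤ x → -(C * x ^ a) ≤ Δ k x})
    (hmp : ∀ k : ℕ, mp k = sInf {b : ℝ | ∃ C : ℝ, ∀ x : ℝ, 1 ≤ x → ∫ y in (1 : ℝ)..x, max (Δ k y) 0 ≤ C * x ^ (1 + b)})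
    (hmm : ∀ k : ℕ, mm k = sInf {b : ℝ | ∃ C : ℝ, ∀ x : ℝ, 1 ≤ x → ∫ y in (1 : ℝ)..x, max (-Δ k y) 0 ≤ C * x ^ (1 + b)})
    (hβ : ∀ k : ℕ, β k = sInf {b : ℝ | ∃ C : ℝ, ∀ x : ℝ, 1 ≤ x → ∫ y in (1 : ℝ)..x, (Δ k y) ^ 2 ≤ C * x ^ (1 + 2 * b)})
    (hσ : σL = sInf {σ : ℝ | 0 < σ ∧ ∀ ε : ℝ, 0 < ε → ∃ C : ℝ, ∀ t : ℝ, 1 ≤ t →
      ‖riemannZeta (σ + t * Complex.I)‖ ≤ C * t ^ ε}) :
    -- one-sided bounds for infinitely many `k`, each with its own side, outside sets of small measure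
    (∀ a η : ℝ, 0 < η → (∃ᶠ k : ℕ in atTop, ∀ ε : ℝ, 0 < ε →
        (∃ C : ℝ, ∀ X : ℝ, 1 ≤ X → volume {x : ℝ | 1 ≤ x ∧ x ≤ X ∧ x ^ (a + ε) < Δ k x} ≤ ENNReal.ofReal (C * X ^ (1 - η))) ∨
        (∃ C : ℝ, ∀ X : ℝ, 1 ≤ X → volume {x : ℝ | 1 ≤ x ∧ x ≤ X ∧ Δ k x < -x ^ (a + ε)} ≤ ENNReal.ofReal (C * X ^ (1 - η)))) →
      σL ≤ a ∧ (∀ k : ℕ, 2 ≤ k → α k ≤ a) ∧ (a = 1 / 2 → ∀ k : ℕ, 2 ≤ k → β k = ((k : ℝ) - 1) / (2 * k))) ∧
    -- the same with squares as arguments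
    (∀ a η : ℝ, 1 / 2 ≤ a → 0 < η → (∃ᶠ k : ℕ in atTop, ∀ ε : ℝ, 0 < ε →
        (∃ C : ℝ, ∀ N : ℕ, 1 ≤ N → (({n : ℕ | 1 ≤ n ∧ n ≤ N ∧ (n : ℝ) ^ (2 * a + ε) < Δ k ((n : ℝ) ^ 2)}.ncard : ℕ) : ℝ) ≤
          C * (N : ℝ) ^ (1 - η)) ∨
        (∃ C : ℝ, ∀ N : ℕ, 1 ≤ N → (({n : ℕ | 1 ≤ n ∧ n ≤ N ∧ Δ k ((n : ℝ) ^ 2) < -(n : ℝ) ^ (2 * a + ε)}.ncard : ℕ) : ℝ) ≤
          C * (N : ℝ) ^ (1 - η))) →
      σL ≤ a ∧ (∀ k : ℕ, 2 ≤ k → α k ≤ a) ∧ (a = 1 / 2 → ∀ k : ℕ, 2 ≤ k → β k = ((k : ℝ) - 1) / (2 * k))) ∧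
    -- the limits
    Tendsto mp atTop (𝓝 σL) ∧ Tendsto mm atTop (𝓝 σL) ∧ Tendsto αp atTop (𝓝 σL) ∧ Tendsto αm atTop (𝓝 σL) ∧
    Tendsto α atTop (𝓝 σL) ∧ (∀ k : ℕ, 2 ≤ k → α k ≤ σL) := by
  have hE : ∀ k : ℕ, Δ k = err k (P k) := fun k => funext fun x => hΔ k x
  have hS : ∀ k : ℕ, 2 ≤ k → Sav k (P k) := by
    intro k hk
    obtain ⟨θ, C, h1, h2⟩ := hP k hk
    rw [hE] at h2
    exact ⟨θ, C, h1, h2⟩
  have hsL : σL = sL := by
    rw [hσ]
    rfl
  have hB : ∀ k : ℕ, β k = bet k (P k) := by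
    intro k
    rw [hβ k]
    unfold bet BetaSet
    rw [hE]
  -- the abscissa is at least one half
  have hmono2 : ∀ l : ℕ, 2 < l → (1 - 1 / (l : ℝ)) * bet 2 (P 2) ≤ (1 - 1 / ((2 : ℕ) : ℝ)) * bet l (P l) :=
    fun l hl => bet_mono le_rfl hl (hS 2 le_rfl) (hS l (by omega))
  have hhalf : 1 / 2 ≤ σL := by
    rw [hsL]
    have hlim0 : Tendsto (fun l : ℕ => 1 / (l : ℝ)) atTop (𝓝 0) := tendsto_one_div_atTop_nhds_zero_nat
    have h1 : ∀ᶠ l : ℕ in atTop, (1 - 1 / (l : ℝ)) * bet 2 (P 2) ≤ (1 - 1 / ((2 : ℕ) : ℝ)) * sL := by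
      filter_upwards [eventually_gt_atTop 2] with l hl
      refine (hmono2 l hl).trans ?_
      have h2 := bet_le_sL (k := l) (by omega) (hS l (by omega))
      have : (0 : ℝ) ≤ 1 - 1 / ((2 : ℕ) : ℝ) := by norm_num
      gcongr
    have h2 : Tendsto (fun l : ℕ => (1 - 1 / (l : ℝ)) * bet 2 (P 2)) atTop (𝓝 ((1 - 0) * bet 2 (P 2))) :=
      (tendsto_const_nhds.sub hlim0).mul_const _
    have h3 := le_of_tendsto h2 h1
    have h4 := bet_lower le_rfl (hS 2 le_rfl)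
    norm_num at h3 h4
    linarith
  have side_int : ∀ k : ℕ, 2 ≤ k → ∀ s a A : ℝ, (s = 1 ∨ s = -1) →
      (∀ x : ℝ, 1 ≤ x → s * err k (P k) x ≤ A * x ^ a) → Conv k (P k) (max a 0) := by
    intro k hk s a A hs h
    obtain ⟨θ, C, hg⟩ := (hS k hk).good
    exact conv_of_side (by omega) hg hs h
  have mean_int : ∀ k : ℕ, 2 ≤ k → ∀ s b A : ℝ, (s = 1 ∨ s = -1) →
      (∀ x : ℝ, 1 ≤ x → ∫ y in (1 : ℝ)..x, max (s * err k (P k) y) 0 ≤ A * x ^ (1 + b)) → Conv k (P k) (max b 0) := by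
    intro k hk s b A hs h
    obtain ⟨θ, C, hg⟩ := (hS k hk).good
    exact conv_of_mean_int (by omega) hg hs h
  have hup : ∀ k : ℕ, 2 ≤ k → ∀ τ : ℝ, σL < τ → ∃ C : ℝ, ∀ x : ℝ, 1 ≤ x → |err k (P k) x| ≤ C * x ^ τ := by
    intro k hk τ hτ
    obtain ⟨θ, C, hg⟩ := (hS k hk).good
    rw [hsL] at hτ
    obtain ⟨σ, h1, h2⟩ := exists_lt_of_csInf_lt ⟨2, Lind_two⟩ hτ
    exact alpha_of_Lind (by omega) hg h1 h2
  have hup0 : ∀ k : ℕ, 2 ≤ k → ∀ τ : ℝ, σL < τ → ∃ C : ℝ, 0 ≤ C ∧ ∀ x : ℝ, 1 ≤ x → |err k (P k) x| ≤ C * x ^ τ := by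
    intro k hk τ hτ
    obtain ⟨C, hC⟩ := hup k hk τ hτ
    refine ⟨C, ?_, hC⟩
    have := (abs_nonneg _).trans (hC 1 le_rfl)
    simpa using this
  have hσ0 : 0 < σL := by linarith
  -- one argument for the five exponents
  have key : ∀ (e : ℕ → ℝ) (S : ℕ → Set ℝ), (∀ k, e k = sInf (S k)) →
      (∀ k : ℕ, 2 ≤ k → ∀ τ : ℝ, σL < τ → τ ∈ S k) →
      (∀ k : ℕ, 2 ≤ k → ∀ a ∈ S k, Conv k (P k) (max a 0)) →
      Tendsto e atTop (𝓝 σL) := by
    intro e S he hmem hside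
    have hbdd : ∀ k : ℕ, 4 ≤ k → BddBelow (S k) := by
      intro k hk
      refine ⟨0, fun a ha => ?_⟩
      by_contra hcon
      push Not at hcon
      have h1 := hside k (by omega) a ha
      rw [max_eq_right hcon.le] at h1
      have h2 := conv_lower (by omega) (hS k (by omega)) le_rfl h1
      have hk0 : (4 : ℝ) ≤ k := by exact_mod_cast hk
      have h3 : 1 / ((k : ℝ) - 1) ≤ 1 / 3 := one_div_le_one_div_of_le (by norm_num) (by linarith)
      linarith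
    have hle : ∀ k : ℕ, 4 ≤ k → e k ≤ σL := by
      intro k hk
      rw [he k]
      apply le_of_forall_pos_le_add
      intro ε hε
      exact csInf_le (hbdd k hk) (hmem k (by omega) _ (by linarith))
    rw [Metric.tendsto_atTop]
    intro ε hε
    by_contra hcon
    push Not at hcon
    have hfr : ∃ᶠ k : ℕ in atTop, Conv k (P k) (max (σL - ε) 0) := by
      rw [frequently_atTop]
      intro N
      obtain ⟨k, hk, hd⟩ := hcon (max N 4)
      have hk1 : N ≤ k := (le_max_left _ _).trans hk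
      have hk4 : 4 ≤ k := (le_max_right _ _).trans hk
      refine ⟨k, hk1, ?_⟩
      have h1 := hle k hk4
      rw [Real.dist_eq, abs_sub_comm, abs_of_nonneg (by linarith)] at hd
      intro σ hσ
      have h2 : e k < σ := by
        have := le_max_left (σL - ε) 0
        linarith
      rw [he k] at h2
      obtain ⟨a, ha, ha2⟩ := exists_lt_of_csInf_lt ⟨σL + 1, hmem k (by omega) _ (by linarith)⟩ h2
      have h3 := hside k (by omega) a ha
      apply h3 σ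
      apply max_lt ha2
      exact lt_of_le_of_lt (le_max_right _ _) hσ
    have h1 := sL_le_of_conv hS (le_max_right _ _) hfr
    rw [← hsL] at h1
    rcases max_cases (σL - ε) 0 with h | h
    · rw [h.1] at h1
      linarith
    · rw [h.1] at h1
      linarith
  have tα : Tendsto α atTop (𝓝 σL) := by
    refine key α _ hα ?_ ?_
    · intro k hk τ hτ
      obtain ⟨C, hC⟩ := hup k hk τ hτ
      exact ⟨C, by rw [hE]; exact hC⟩
    · rintro k hk a ⟨C, hC⟩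
      rw [hE] at hC
      refine side_int k hk 1 a C (Or.inl rfl) fun x hx => ?_
      have := le_abs_self (err k (P k) x)
      have := hC x hx
      linarith
  have tp : Tendsto αp atTop (𝓝 σL) := by
    refine key αp _ hαp ?_ ?_
    · intro k hk τ hτ
      obtain ⟨C, hC⟩ := hup k hk τ hτ
      exact ⟨C, fun x hx => by rw [hE]; exact (le_abs_self _).trans (hC x hx)⟩
    · rintro k hk a ⟨C, hC⟩
      rw [hE] at hC
      exact side_int k hk 1 a C (Or.inl rfl) fun x hx => by rw [one_mul]; exact hC x hx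
  have tm : Tendsto αm atTop (𝓝 σL) := by
    refine key αm _ hαm ?_ ?_
    · intro k hk τ hτ
      obtain ⟨C, hC⟩ := hup k hk τ hτ
      refine ⟨C, fun x hx => ?_⟩
      rw [hE]
      have h1 := hC x hx
      have h2 := neg_abs_le (err k (P k) x)
      linarith
    · rintro k hk a ⟨C, hC⟩
      rw [hE] at hC
      refine side_int k hk (-1) a C (Or.inr rfl) fun x hx => ?_
      have := hC x hx
      linarith
  have tmp : Tendsto mp atTop (𝓝 σL) := by
    refine key mp _ hmp ?_ ?_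
    · intro k hk τ hτ
      obtain ⟨C, hC0, hC⟩ := hup0 k hk τ hτ
      refine ⟨C, fun x hx => ?_⟩
      have := mean_up (s := 1) (Or.inl rfl) (by linarith) hC0 hC x hx
      simp_rw [one_mul] at this
      rw [hE]
      exact this
    · rintro k hk b ⟨C, hC⟩
      rw [hE] at hC
      refine mean_int k hk 1 b C (Or.inl rfl) fun x hx => ?_
      simp_rw [one_mul]
      exact hC x hx
  have tmm : Tendsto mm atTop (𝓝 σL) := by
    refine key mm _ hmm ?_ ?_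
    · intro k hk τ hτ
      obtain ⟨C, hC0, hC⟩ := hup0 k hk τ hτ
      refine ⟨C, fun x hx => ?_⟩
      have := mean_up (s := -1) (Or.inr rfl) (by linarith) hC0 hC x hx
      simp_rw [neg_one_mul] at this
      rw [hE]
      exact this
    · rintro k hk b ⟨C, hC⟩
      rw [hE] at hC
      refine mean_int k hk (-1) b C (Or.inr rfl) fun x hx => ?_
      simp_rw [neg_one_mul]
      exact hC x hx
  have hαL : ∀ k : ℕ, 2 ≤ k → α k ≤ σL := by
    intro k hk
    have hbdd : BddBelow {a : ℝ | ∃ C : ℝ, ∀ x : ℝ, 1 ≤ x → |Δ k x| ≤ C * x ^ a} := by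
      refine ⟨0, ?_⟩
      rintro a ⟨C, hC⟩
      by_contra hcon
      push Not at hcon
      rw [hE] at hC
      have hk0 : (2 : ℝ) ≤ k := by exact_mod_cast hk
      obtain ⟨θ, B, hg⟩ := (hS k hk).good
      have hC0 : 0 ≤ C := by
        have := (abs_nonneg _).trans (hC 1 le_rfl)
        simpa using this
      have h1 : (1 / 8 : ℝ) ∈ BetaSet k (P k) := by
        have hg2 : Good k (P k) (1 / 8) C := by
          refine ⟨by norm_num, by norm_num, hC0, fun x hx => (hC x hx).trans ?_⟩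
          exact mul_le_mul_of_nonneg_left (Real.rpow_le_rpow_of_exponent_le hx (by linarith)) hC0
        exact beta_of_point hg2
      have h2 := beta_lower hk (hS k hk) h1
      rw [div_le_div_iff₀ (by linarith) (by norm_num)] at h2
      linarith
    rw [hα k]
    apply le_of_forall_pos_le_add
    intro ε hε
    obtain ⟨C, hC⟩ := hup k hk (σL + ε) (by linarith)
    exact csInf_le hbdd ⟨C, by rw [hE]; exact hC⟩
  -- the first claim
  have main : ∀ a η : ℝ, 0 < η → (∃ᶠ k : ℕ in atTop, ∀ ε : ℝ, 0 < ε →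
        (∃ C : ℝ, ∀ X : ℝ, 1 ≤ X → volume {x : ℝ | 1 ≤ x ∧ x ≤ X ∧ x ^ (a + ε) < Δ k x} ≤ ENNReal.ofReal (C * X ^ (1 - η))) ∨
        (∃ C : ℝ, ∀ X : ℝ, 1 ≤ X → volume {x : ℝ | 1 ≤ x ∧ x ≤ X ∧ Δ k x < -x ^ (a + ε)} ≤ ENNReal.ofReal (C * X ^ (1 - η)))) →
      σL ≤ a ∧ (∀ k : ℕ, 2 ≤ k → α k ≤ a) ∧ (a = 1 / 2 → ∀ k : ℕ, 2 ≤ k → β k = ((k : ℝ) - 1) / (2 * k)) := by
    intro a η hη ha
    have hfr : ∃ᶠ k : ℕ in atTop, Conv k (P k) (max (max a (σL - η)) 0) := by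
      refine (ha.and_eventually (eventually_ge_atTop 2)).mono ?_
      rintro k ⟨hk, hk2⟩ σ hσ
      obtain ⟨c, hc⟩ : ∃ c, c = max (max a (σL - η)) 0 := ⟨_, rfl⟩
      rw [← hc] at hσ
      have hc0 : 0 ≤ c := by rw [hc]; exact le_max_right _ _
      have hca : a ≤ c := by rw [hc]; exact (le_max_left _ _).trans (le_max_left _ _)
      have hcs : σL - η ≤ c := by rw [hc]; exact (le_max_right _ _).trans (le_max_left _ _)
      obtain ⟨ε, hε⟩ : ∃ ε, ε = (σ - c) / 2 := ⟨_, rfl⟩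
      have hε0 : 0 < ε := by rw [hε]; linarith
      obtain ⟨B, hB0, hBd⟩ := hup0 k hk2 (σL + ε) (by linarith)
      obtain ⟨θ, G, hg⟩ := (hS k hk2).good
      -- both sides at once
      have side : ∀ s C : ℝ, (s = 1 ∨ s = -1) →
          (∀ X : ℝ, 1 ≤ X → volume {x : ℝ | 1 ≤ x ∧ x ≤ X ∧ x ^ (a + ε) < s * err k (P k) x} ≤
            ENNReal.ofReal (C * X ^ (1 - η))) →
          IntegrableOn (fun u => |fe k (P k) u| * Real.exp (-σ * u)) (Ioi 0) := by
        intro s C hs hvol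
        have h1 : ∀ X : ℝ, 1 ≤ X → volume {x : ℝ | 1 ≤ x ∧ x ≤ X ∧ x ^ (c + ε) < s * err k (P k) x} ≤
            ENNReal.ofReal (C * X ^ (1 - η)) := by
          intro X hX
          refine (measure_mono ?_).trans (hvol X hX)
          rintro x ⟨hx1, hx2, hx3⟩
          exact ⟨hx1, hx2, lt_of_le_of_lt (Real.rpow_le_rpow_of_exponent_le hx1 (by linarith)) hx3⟩
        have h2 := mean_of_exc hs (by linarith) (by linarith) hB0 hBd h1
        have h3 := conv_of_mean (by omega) hg hs h2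
        apply h3 σ
        apply max_lt (max_lt _ _) _ <;> linarith
      rcases hk ε hε0 with ⟨C, hC⟩ | ⟨C, hC⟩
      · refine side 1 C (Or.inl rfl) fun X hX => ?_
        simp_rw [one_mul]
        rw [← hE]
        exact hC X hX
      · refine side (-1) C (Or.inr rfl) fun X hX => ?_
        refine (measure_mono ?_).trans (hC X hX)
        rintro x ⟨hx1, hx2, hx3⟩
        refine ⟨hx1, hx2, ?_⟩
        rw [hE]
        linarith
    have h0 := sL_le_of_conv hS (le_max_right _ _) hfr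
    rw [← hsL] at h0
    have h1 : σL ≤ a := by
      by_contra hcon
      push Not at hcon
      have : max (max a (σL - η)) 0 < σL := max_lt (max_lt hcon (by linarith)) hσ0
      linarith
    refine ⟨h1, fun k hk => (hαL k hk).trans h1, fun ha2 k hk => ?_⟩
    rw [hB k]
    apply le_antisymm _ (bet_lower hk (hS k hk))
    -- the mean square: compare with large `l`
    have hk0 : (2 : ℝ) ≤ k := by exact_mod_cast hk
    have hlim0 : Tendsto (fun l : ℕ => 1 / (l : ℝ)) atTop (𝓝 0) := tendsto_one_div_atTop_nhds_zero_nat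
    have h2 : ∀ᶠ l : ℕ in atTop, (1 - 1 / (l : ℝ)) * bet k (P k) ≤ (1 - 1 / (k : ℝ)) * (1 / 2) := by
      filter_upwards [eventually_gt_atTop k] with l hl
      refine (bet_mono hk hl (hS k hk) (hS l (by omega))).trans ?_
      have h3 : bet l (P l) ≤ 1 / 2 := by
        have := bet_le_sL (k := l) (by omega) (hS l (by omega))
        rw [← hsL] at this
        linarith
      have h4 : 1 / (k : ℝ) ≤ 1 := by
        rw [div_le_one (by linarith)]
        linarith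
      exact mul_le_mul_of_nonneg_left h3 (by linarith)
    have h3 : Tendsto (fun l : ℕ => (1 - 1 / (l : ℝ)) * bet k (P k)) atTop (𝓝 ((1 - 0) * bet k (P k))) :=
      (tendsto_const_nhds.sub hlim0).mul_const _
    have h4 := le_of_tendsto h3 h2
    rw [sub_zero, one_mul] at h4
    have hk1 : (k : ℝ) ≠ 0 := by linarith
    have e : (1 - 1 / (k : ℝ)) * (1 / 2) = ((k : ℝ) - 1) / (2 * k) := by field_simp
    rwa [e] at h4
  refine ⟨main, ?_, tmp, tmm, tp, tm, tα, hαL⟩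
  intro a η ha hη hsq
  refine main a (min η 1 / 2) (by positivity) (hsq.mono ?_)
  intro k hk ε hε
  have hm0 : 0 ≤ min η 1 := by positivity
  have hpow : ∀ N : ℕ, 1 ≤ N → ∀ C : ℝ, C * (N : ℝ) ^ (1 - η) ≤ |C| * (N : ℝ) ^ (1 - min η 1) := by
    intro N hN C
    have hN1 : (1 : ℝ) ≤ N := by exact_mod_cast hN
    calc C * (N : ℝ) ^ (1 - η) ≤ |C| * (N : ℝ) ^ (1 - η) := by
          gcongr
          exact le_abs_self C
      _ ≤ _ := by
          apply mul_le_mul_of_nonneg_left _ (abs_nonneg C)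
          exact Real.rpow_le_rpow_of_exponent_le hN1 (by linarith [min_le_left η 1])
  have both : ∀ s C : ℝ, (s = 1 ∨ s = -1) →
      (∀ N : ℕ, 1 ≤ N → (({n : ℕ | 1 ≤ n ∧ n ≤ N ∧ (n : ℝ) ^ (2 * a + min ε 1) < s * err k (P k) ((n : ℝ) ^ 2)}.ncard : ℕ) : ℝ) ≤
          C * (N : ℝ) ^ (1 - η)) →
      ∃ C' : ℝ, ∀ X : ℝ, 1 ≤ X → volume {x : ℝ | 1 ≤ x ∧ x ≤ X ∧ x ^ (a + ε) < s * err k (P k) x} ≤
        ENNReal.ofReal (C' * X ^ (1 - min η 1 / 2)) := by
    intro s C hs h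
    obtain ⟨C', hC'⟩ := vol_of_squares (C := |C|) hs ha (lt_min hε one_pos) (min_le_right _ _) hm0 (min_le_right _ _)
      (fun N hN => (h N hN).trans (hpow N hN C))
    refine ⟨C', fun X hX => (measure_mono ?_).trans (hC' X hX)⟩
    rintro x ⟨hx1, hx2, hx3⟩
    exact ⟨hx1, hx2, lt_of_le_of_lt (Real.rpow_le_rpow_of_exponent_le hx1 (by linarith [min_le_left ε 1])) hx3⟩
  rcases hk (min ε 1) (lt_min hε one_pos) with ⟨C, hC⟩ | ⟨C, hC⟩
  · left
    obtain ⟨C', hC'⟩ := both 1 C (Or.inl rfl) (fun N hN => by simp_rw [one_mul]; rw [← hE]; exact hC N hN)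
    refine ⟨C', fun X hX => ?_⟩
    have := hC' X hX
    simp_rw [one_mul] at this
    rw [hE]
    exact this
  · right
    have e : ∀ (c : ℝ) (y : ℝ), (c < -1 * err k (P k) y) = (Δ k y < -c) := by
      intro c y
      rw [hE]
      apply propext
      constructor <;> intro h <;> linarith
    obtain ⟨C', hC'⟩ := both (-1) C (Or.inr rfl) (fun N hN => by simp_rw [e]; exact hC N hN)
    refine ⟨C', fun X hX => ?_⟩
    have := hC' X hX
    simp_rw [e] at this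
    exact this

end Pool.Agent.Results.MP_bc6037_nt.ExceptionalArguments
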