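import Pool.Agent.J4H77.PE.Struct

/-!
# The exponents `β_k` of the mean square in Piltz's divisor problem are convex in `1/k`

`β_k` is a convex function of `1/k`, with the value `0` at `1/k = 1` and the limit `σ_L` (the abscissa of the Lindelöf
hypothesis) at `1/k = 0`. So `k β_k / (k - 1)` is nondecreasing, with limit `σ_L`, and the `k` with the conjectured value
`β_k = (k-1)/(2k)` form an initial segment: infinitely many such `k` give all `k`.
-/

set_option autoImplicit false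

open Filter Topology MeasureTheory Set

namespace Pool.Agent.Results.MP_bc6037_nt.MeanSquareConvexity

open Pool.Agent.J4H77.PE

/-- The structure of the exponents `β_k` of the mean square of `Δ_k`. -/
theorem result (P : ℕ → Polynomial ℝ) (Δ : ℕ → ℝ → ℝ) (α β : ℕ → ℝ) (σL : ℝ)
    (hΔ : ∀ k : ℕ, ∀ x : ℝ, Δ k x = (∑ n ∈ Finset.Icc 1 ⌊x⌋₊, (((ArithmeticFunction.zeta ^ k : ArithmeticFunction ℕ) n : ℕ) : ℝ))
      - x * (P k).eval (Real.log x))
    (hP : ∀ k : ℕ, 2 ≤ k → ∃ θ C : ℝ, θ < 1 ∧ ∀ x : ℝ, 1 ≤ x → |Δ k x| ≤ C * x ^ θ)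
    (hα : ∀ k : ℕ, α k = sInf {a : ℝ | ∃ C : ℝ, ∀ x : ℝ, 1 ≤ x → |Δ k x| ≤ C * x ^ a})
    (hβ : ∀ k : ℕ, β k = sInf {b : ℝ | ∃ C : ℝ, ∀ x : ℝ, 1 ≤ x → ∫ y in (1 : ℝ)..x, (Δ k y) ^ 2 ≤ C * x ^ (1 + 2 * b)})
    (hσ : σL = sInf {σ : ℝ | 0 < σ ∧ ∀ ε : ℝ, 0 < ε → ∃ C : ℝ, ∀ t : ℝ, 1 ≤ t →
      ‖riemannZeta (σ + t * Complex.I)‖ ≤ C * t ^ ε}) :
    -- convexity in `1/k`
    (∀ j k l : ℕ, 2 ≤ j → j < k → k < l →
      (1 / (j : ℝ) - 1 / l) * β k ≤ (1 / (k : ℝ) - 1 / l) * β j + (1 / (j : ℝ) - 1 / k) * β l) ∧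
    -- comparison with `1/k = 0`
    (∀ j k : ℕ, 2 ≤ j → j < k → β k ≤ (j : ℝ) / k * β j + (1 - (j : ℝ) / k) * σL) ∧
    -- comparison with `1/k = 1`
    (∀ k l : ℕ, 2 ≤ k → k ≤ l → (k : ℝ) / (k - 1) * β k ≤ (l : ℝ) / (l - 1) * β l) ∧
    -- bounds and limit
    (∀ k : ℕ, 2 ≤ k → ((k : ℝ) - 1) / (2 * k) ≤ β k ∧ β k ≤ α k ∧ β k ≤ ((k : ℝ) - 1) / k * σL) ∧
    Tendsto β atTop (𝓝 σL) ∧
    -- the conjectured value holds on an initial segment
    (∀ j k : ℕ, 2 ≤ j → j ≤ k → β k = ((k : ℝ) - 1) / (2 * k) → β j = ((j : ℝ) - 1) / (2 * j)) ∧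
    -- infinitely many `k` imply all `k`
    ((∃ᶠ k : ℕ in atTop, α k = ((k : ℝ) - 1) / (2 * k) ∨ β k = ((k : ℝ) - 1) / (2 * k)) →
      (∀ k : ℕ, 2 ≤ k → β k = ((k : ℝ) - 1) / (2 * k)) ∧ σL = 1 / 2) := by
  have hE : ∀ k : ℕ, Δ k = err k (P k) := fun k => funext fun x => hΔ k x
  have hS : ∀ k : ℕ, 2 ≤ k → Sav k (P k) := by
    intro k hk
    obtain ⟨θ, C, h1, h2⟩ := hP k hk
    rw [hE] at h2
    exact ⟨θ, C, h1, h2⟩
  have hB : ∀ k : ℕ, β k = bet k (P k) := by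
    intro k
    rw [hβ k]
    unfold bet BetaSet
    rw [hE]
  have hsL : σL = sL := by
    rw [hσ]
    rfl
  -- the comparison with `1/k = 0`
  have hlim0 : Tendsto (fun l : ℕ => 1 / (l : ℝ)) atTop (𝓝 0) := tendsto_one_div_atTop_nhds_zero_nat
  have c1 : ∀ j k l : ℕ, 2 ≤ j → j < k → k < l →
      (1 / (j : ℝ) - 1 / l) * β k ≤ (1 / (k : ℝ) - 1 / l) * β j + (1 / (j : ℝ) - 1 / k) * β l := by
    intro j k l hj hjk hkl
    rw [hB, hB, hB]
    exact bet_convex hj hjk hkl (hS j hj) (hS k (by omega)) (hS l (by omega))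
  have cL : ∀ k : ℕ, 2 ≤ k → β k ≤ σL := by
    intro k hk
    rw [hB, hsL]
    exact bet_le_sL hk (hS k hk)
  have c0 : ∀ k : ℕ, 2 ≤ k → ((k : ℝ) - 1) / (2 * k) ≤ β k := by
    intro k hk
    rw [hB]
    exact bet_lower hk (hS k hk)
  have cm : ∀ k l : ℕ, 2 ≤ k → k < l → (1 - 1 / (l : ℝ)) * β k ≤ (1 - 1 / (k : ℝ)) * β l := by
    intro k l hk hkl
    rw [hB, hB]
    exact bet_mono hk hkl (hS k hk) (hS l (by omega))
  have c2 : ∀ j k : ℕ, 2 ≤ j → j < k → β k ≤ (j : ℝ) / k * β j + (1 - (j : ℝ) / k) * σL := by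
    intro j k hj hjk
    have hj0 : (0 : ℝ) < j := by
      have : 0 < j := by omega
      exact_mod_cast this
    have hk0 : (j : ℝ) < k := by exact_mod_cast hjk
    have h1 : ∀ᶠ l : ℕ in atTop, (1 / (j : ℝ) - 1 / l) * β k ≤ (1 / (k : ℝ) - 1 / l) * β j + (1 / (j : ℝ) - 1 / k) * σL := by
      filter_upwards [eventually_gt_atTop k] with l hl
      refine (c1 j k l hj hjk hl).trans ?_
      have h2 : 1 / (k : ℝ) < 1 / j := one_div_lt_one_div_of_lt hj0 hk0
      have h3 := cL l (by omega)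
      have h4 : (1 / (j : ℝ) - 1 / k) * β l ≤ (1 / (j : ℝ) - 1 / k) * σL := mul_le_mul_of_nonneg_left h3 (by linarith)
      linarith
    have h2 : Tendsto (fun l : ℕ => (1 / (j : ℝ) - 1 / l) * β k) atTop (𝓝 ((1 / (j : ℝ) - 0) * β k)) :=
      (tendsto_const_nhds.sub hlim0).mul_const _
    have h3 : Tendsto (fun l : ℕ => (1 / (k : ℝ) - 1 / l) * β j + (1 / (j : ℝ) - 1 / k) * σL) atTop
        (𝓝 ((1 / (k : ℝ) - 0) * β j + (1 / (j : ℝ) - 1 / k) * σL)) :=
      ((tendsto_const_nhds.sub hlim0).mul_const _).add_const _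
    have h4 := le_of_tendsto_of_tendsto h2 h3 h1
    rw [sub_zero, sub_zero] at h4
    have h5 : (j : ℝ) * (1 / (j : ℝ) * β k) ≤ j * (1 / (k : ℝ) * β j + (1 / (j : ℝ) - 1 / k) * σL) :=
      mul_le_mul_of_nonneg_left h4 hj0.le
    have hk1 : (k : ℝ) ≠ 0 := by linarith
    have e1 : (j : ℝ) * (1 / (j : ℝ) * β k) = β k := by field_simp
    have e2 : (j : ℝ) * (1 / (k : ℝ) * β j + (1 / (j : ℝ) - 1 / k) * σL) = (j : ℝ) / k * β j + (1 - (j : ℝ) / k) * σL := by
      field_simp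
    rw [e1, e2] at h5
    exact h5
  have c3 : ∀ k l : ℕ, 2 ≤ k → k ≤ l → (k : ℝ) / (k - 1) * β k ≤ (l : ℝ) / (l - 1) * β l := by
    intro k l hk hkl
    rcases eq_or_lt_of_le hkl with rfl | hlt
    · exact le_rfl
    have hk0 : (2 : ℝ) ≤ k := by exact_mod_cast hk
    have hl0 : (k : ℝ) < l := by exact_mod_cast hlt
    have h1 := cm k l hk hlt
    have hk1 : 0 < (k : ℝ) - 1 := by linarith
    have hl1 : 0 < (l : ℝ) - 1 := by linarith
    rw [div_mul_eq_mul_div, div_mul_eq_mul_div, div_le_div_iff₀ hk1 hl1]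
    have hk2 : (k : ℝ) ≠ 0 := by linarith
    have hl2 : (l : ℝ) ≠ 0 := by linarith
    have e1 : (k : ℝ) * β k * (l - 1) = (k * l) * ((1 - 1 / (l : ℝ)) * β k) := by
      rw [show (k * l : ℝ) * ((1 - 1 / (l : ℝ)) * β k) = k * (l - l / l) * β k by ring, div_self hl2]
      ring
    have e2 : (l : ℝ) * β l * (k - 1) = (k * l) * ((1 - 1 / (k : ℝ)) * β l) := by
      rw [show (k * l : ℝ) * ((1 - 1 / (k : ℝ)) * β l) = l * (k - k / k) * β l by ring, div_self hk2]
      ring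
    rw [e1, e2]
    exact mul_le_mul_of_nonneg_left h1 (by positivity)
  have c4 : ∀ k : ℕ, 2 ≤ k → β k ≤ ((k : ℝ) - 1) / k * σL := by
    intro k hk
    have hk0 : (2 : ℝ) ≤ k := by exact_mod_cast hk
    have h1 : ∀ᶠ l : ℕ in atTop, (1 - 1 / (l : ℝ)) * β k ≤ (1 - 1 / (k : ℝ)) * σL := by
      filter_upwards [eventually_gt_atTop k] with l hl
      refine (cm k l hk hl).trans ?_
      have h2 : 1 / (k : ℝ) ≤ 1 := by
        rw [div_le_one (by linarith)]
        linarith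
      exact mul_le_mul_of_nonneg_left (cL l (by omega)) (by linarith)
    have h2 : Tendsto (fun l : ℕ => (1 - 1 / (l : ℝ)) * β k) atTop (𝓝 ((1 - 0) * β k)) :=
      (tendsto_const_nhds.sub hlim0).mul_const _
    have h3 := le_of_tendsto h2 h1
    rw [sub_zero, one_mul] at h3
    have e : 1 - 1 / (k : ℝ) = ((k : ℝ) - 1) / k := by field_simp
    rwa [e] at h3
  have cα : ∀ k : ℕ, 2 ≤ k → β k ≤ α k := by
    intro k hk
    have hk0 : (2 : ℝ) ≤ k := by exact_mod_cast hk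
    rw [hα k]
    apply le_csInf
    · obtain ⟨θ, C, -, h2⟩ := hP k hk
      exact ⟨θ, C, h2⟩
    · rintro a ⟨C, hC⟩
      obtain ⟨θ, A, hg⟩ := (hS k hk).good
      have key : ∀ a : ℝ, 0 ≤ a → (∃ C : ℝ, ∀ x : ℝ, 1 ≤ x → |Δ k x| ≤ C * x ^ a) → a ∈ BetaSet k (P k) := by
        rintro a ha ⟨C, hC⟩
        rw [hE] at hC
        have hC0 : 0 ≤ C := by
          have := (abs_nonneg _).trans (hC 1 le_rfl)
          simpa using this
        refine ⟨C ^ 2, fun x hx => ?_⟩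
        have hx0 : 0 < x := by linarith
        have h1 : ∀ y ∈ Icc (1 : ℝ) x, (err k (P k) y) ^ 2 ≤ C ^ 2 * x ^ (2 * a) := by
          intro y hy
          have h1 := hC y hy.1
          have h2 : y ^ a ≤ x ^ a := Real.rpow_le_rpow (by linarith [hy.1]) hy.2 ha
          have h3 : |err k (P k) y| ≤ C * x ^ a := h1.trans (mul_le_mul_of_nonneg_left h2 hC0)
          calc (err k (P k) y) ^ 2 = |err k (P k) y| ^ 2 := (sq_abs _).symm
            _ ≤ (C * x ^ a) ^ 2 := by gcongr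
            _ = _ := by rw [mul_pow, ← Real.rpow_natCast (x ^ a), ← Real.rpow_mul hx0.le]; norm_num; left; ring_nf
        have h2 : IntervalIntegrable (fun y => (err k (P k) y) ^ 2) volume 1 x := by
          rw [intervalIntegrable_iff_integrableOn_Icc_of_le hx]
          exact err_sq_int hg hx
        calc ∫ y in (1 : ℝ)..x, (err k (P k) y) ^ 2 ≤ ∫ y in (1 : ℝ)..x, C ^ 2 * x ^ (2 * a) :=
              intervalIntegral.integral_mono_on hx h2 (by simp) h1
          _ = (x - 1) * (C ^ 2 * x ^ (2 * a)) := by rw [intervalIntegral.integral_const, smul_eq_mul]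
          _ ≤ x * (C ^ 2 * x ^ (2 * a)) := by
              apply mul_le_mul_of_nonneg_right (by linarith) (by positivity)
          _ = C ^ 2 * x ^ (1 + 2 * a) := by
              rw [Real.rpow_add hx0, Real.rpow_one]
              ring
      rcases le_or_gt 0 a with ha | ha
      · rw [hB]
        exact csInf_le (beta_bdd hk (hS k hk)) (key a ha ⟨C, hC⟩)
      · exfalso
        have hC0 : 0 ≤ C := by
          have := (abs_nonneg _).trans (hC 1 le_rfl)
          simpa using this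
        have h1 := beta_lower hk (hS k hk) (key 0 le_rfl ⟨C, fun x hx => (hC x hx).trans
          (mul_le_mul_of_nonneg_left (Real.rpow_le_rpow_of_exponent_le hx ha.le) hC0)⟩)
        have h2 : 0 < ((k : ℝ) - 1) / (2 * k) := by
          apply div_pos <;> linarith
        linarith
  have c6 : ∀ j k : ℕ, 2 ≤ j → j ≤ k → β k = ((k : ℝ) - 1) / (2 * k) → β j = ((j : ℝ) - 1) / (2 * j) := by
    intro j k hj hjk hk
    have hj0 : (2 : ℝ) ≤ j := by exact_mod_cast hj
    have hk0 : (j : ℝ) ≤ k := by exact_mod_cast hjk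
    have h1 := c3 j k hj hjk
    have hk1 : 0 < (k : ℝ) - 1 := by linarith
    have hj1 : 0 < (j : ℝ) - 1 := by linarith
    have e1 : (k : ℝ) / (k - 1) * β k = 1 / 2 := by
      rw [hk]
      have hk2 : (k : ℝ) ≠ 0 := by linarith
      have hk3 : (k : ℝ) - 1 ≠ 0 := hk1.ne'
      field_simp
    rw [e1, div_mul_eq_mul_div, div_le_iff₀ hj1] at h1
    apply le_antisymm _ (c0 j hj)
    rw [le_div_iff₀ (by linarith)]
    linarith
  refine ⟨c1, c2, c3, fun k hk => ⟨c0 k hk, cα k hk, c4 k hk⟩, ?_, c6, ?_⟩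
  · -- the limit
    rw [Metric.tendsto_atTop]
    intro ε hε
    have h1 : ∃ k₀ : ℕ, 2 ≤ k₀ ∧ σL - ε / 2 < β k₀ := by
      by_contra hcon
      push Not at hcon
      have h2 := sL_le hS (a := σL - ε / 2) (fun k hk => by
        rw [← hB]
        exact hcon k hk)
      rw [← hsL] at h2
      linarith
    obtain ⟨k₀, hk₀, h2⟩ := h1
    have h3 : Tendsto (fun l : ℕ => (1 - 1 / (l : ℝ)) * β k₀) atTop (𝓝 ((1 - 0) * β k₀)) :=
      (tendsto_const_nhds.sub hlim0).mul_const _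
    rw [sub_zero, one_mul] at h3
    have h4 := h3.eventually (lt_mem_nhds (show σL - ε < β k₀ by linarith))
    obtain ⟨N, hN⟩ := eventually_atTop.1 h4
    refine ⟨max N (k₀ + 1), fun l hl => ?_⟩
    have hl1 : N ≤ l := (le_max_left _ _).trans hl
    have hl2 : k₀ + 1 ≤ l := (le_max_right _ _).trans hl
    have h5 := hN l hl1
    have h6 := cm k₀ l hk₀ (by omega)
    have h7 : (1 - 1 / (k₀ : ℝ)) * β l ≤ β l := by
      have h8 : 0 ≤ β l := by
        rw [hB]
        exact bet_nonneg (by omega) (hS l (by omega))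
      have h9 : 0 ≤ 1 / (k₀ : ℝ) := by positivity
      nlinarith
    rw [Real.dist_eq, abs_lt]
    constructor
    · linarith
    · linarith [cL l (by omega)]
  · -- infinitely many `k`
    intro hf
    have hb : ∀ k : ℕ, 2 ≤ k → β k = ((k : ℝ) - 1) / (2 * k) := by
      intro k hk
      obtain ⟨l, hl1, hl2⟩ := (hf.and_eventually (eventually_ge_atTop k)).exists
      apply c6 k l hk hl2
      rcases hl1 with h1 | h1
      · exact le_antisymm ((cα l (by omega)).trans h1.le) (c0 l (by omega))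
      · exact h1
    refine ⟨hb, le_antisymm ?_ ?_⟩
    · rw [hsL]
      apply sL_le hS
      intro k hk
      have hk0 : (2 : ℝ) ≤ k := by exact_mod_cast hk
      rw [← hB, hb k hk, div_le_div_iff₀ (by linarith) (by norm_num)]
      linarith
    · have h1 := c4 2 le_rfl
      have h2 := c0 2 le_rfl
      norm_num at h1 h2
      linarith

end Pool.Agent.Results.MP_bc6037_nt.MeanSquareConvexity
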