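import Pool.Agent.J4H30.GS.Asm
import Pool.Agent.J4H30.GS.Z4p
import Pool.Agent.J4H30.GS.Kb
import Pool.Agent.J4H30.GS.Tr
import Pool.Agent.J4H13.GS.Fm2
import Pool.Agent.J4H38.GS.Z1
import Pool.Agent.J4H38.GS.Pm
import Pool.Agent.J4H55.GS.Z2
import Pool.Agent.J4H49.GS.Z3A
import Pool.Agent.J4H94.GS.Z3
import Pool.Agent.J4H89.GS.DAN
import Pool.Agent.J4H89.GS.HUR
import Pool.Agent.J4H89.GS.PP

/-!
# Piltz's divisor problem with generic shifts: the pointwise exponent is at most one half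

Joint work of helper30 and helper38, helper13, helper45, helper49, helper55, helper89, helper94 (project GS).

For `J ≤ 4` and almost every `α ∈ [0,1)^k` the number of the `(n_1, …, n_{J+k})` with `n_1 ⋯ n_J (n_{J+1} + α_1) ⋯ (n_{J+k} + α_k) ≤ x`
is `x P(log x) + O(x^(1/2+ε))`.

Proof. The transform of the counting function is `Z(s) = ζ(s)^J ∏ (D(α_i, s) + 1/(s-1))/s`, where the mean square over
`a ∈ [0,1)` of `D(a, σ + it) = ∑ (n+a)^(-s) - 1/(s-1)` is `≪ |t|^(1-2σ)` for `0 < σ < 1/2` (Parseval over the shift and the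
derivative tests). So the FIRST moment over the shifts of `Z(σ + it)` is `≪ |ζ(s)|^J |t|^(k(1/2-σ)-1)`, and with the fourth
moment of `ζ` the integral of `|Z(σ + it)| |t|^(-κ)` is finite for almost every `α`, where `κ → 0` as `σ → 1/2`. The Gaussian
mean of the error term at the scale `x^(1/2)` is therefore `≪ x^(1/2+ε)`, and the counting function is monotone.
-/

set_option autoImplicit false

open MeasureTheory Set Filter Polynomial

namespace Pool.Agent.Results.MP_bc6037_nt.PointwiseAlmostAllShifts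

/-- The number of the `n : Fin K → ℕ` with `n i ≥ 1` for all `i` and `∏ (n i + β i) ≤ x`. -/
noncomputable def count (K : ℕ) (β : Fin K → ℝ) (x : ℝ) : ℕ :=
  {n : Fin K → ℕ | (∀ i, 1 ≤ n i) ∧ ∏ i, ((n i : ℝ) + β i) ≤ x}.ncard

/-- Let `J ≤ 4` and `J + k ≥ 1`. For almost every `α ∈ [0,1)^k` there is a real polynomial `P` of degree `< J + k` such that
for every `ε > 0` the number of the vectors of `J + k` natural numbers `n_i ≥ 1` with
`n_1 ⋯ n_J (n_{J+1} + α_1) ⋯ (n_{J+k} + α_k) ≤ x` differs from `x P(log x)` by at most `C x^(1/2+ε)` for all `x ≥ 1`. -/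
theorem result : ∀ J k : ℕ, J ≤ 4 → 1 ≤ J + k →
    ∀ᵐ α : Fin k → ℝ ∂(volume.restrict (Set.pi univ (fun _ => Ico (0 : ℝ) 1))), ∃ P : ℝ[X],
      P.degree < ((J + k : ℕ) : WithBot ℕ) ∧ ∀ ε : ℝ, 0 < ε → ∃ C : ℝ, ∀ x : ℝ, 1 ≤ x →
        |(count (J + k) (Fin.append (fun _ : Fin J => (0 : ℝ)) α) x : ℝ) - x * P.eval (Real.log x)| ≤
          C * x ^ (1 / 2 + ε) :=
  Pool.Agent.J4H30.GS.t_PT2 Pool.Agent.J4H89.GS.t_DAN
    (Pool.Agent.J4H13.GS.t_FM2 (Pool.Agent.J4H13.GS.t_SM Pool.Agent.J4H30.GS.t_KB)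
      (Pool.Agent.J4H38.GS.t_Z1 Pool.Agent.J4H89.GS.t_DAN Pool.Agent.J4H89.GS.t_HUR)
      (Pool.Agent.J4H30.GS.t_Z4P Pool.Agent.J4H55.GS.t_Z2
        (Pool.Agent.J4H94.GS.t_Z3 Pool.Agent.J4H49.GS.t_Z3A)))
    (Pool.Agent.J4H30.GS.t_TR Pool.Agent.J4H89.GS.t_HUR) Pool.Agent.J4H89.GS.t_PP
    Pool.Agent.J4H38.GS.t_PM

end Pool.Agent.Results.MP_bc6037_nt.PointwiseAlmostAllShifts
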